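import Pool.Agent.Helper78.LD.Push

/-!
L-SHAPED CORRIDOR, part [D]: continuity of the corridor vector in the parameters.

`CX f` : all linear functionals of the vector valued function `f` are continuous.
`FF_continuous` : the crossing amplitude `FF m k b β` is continuous in `(b, β)`.
-/

namespace H45LD
open IP Finset Real LD

section
variable {X : Type*} [TopologicalSpace X]

/-- weakly continuous vector valued functions -/
def CX (f : X → M) : Prop := ∀ l : M →ₗ[ℝ] ℝ, Continuous (fun x => l (f x))

theorem CX.const (v : M) : CX (fun _ : X => v) := fun _ => continuous_const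

theorem CX.smul {f : X → M} (hf : CX f) {g : X → ℝ} (hg : Continuous g) : CX (fun x => g x • f x) := by
  intro l
  simp only [map_smul, smul_eq_mul]
  exact hg.mul (hf l)

theorem CX.lin {f : X → M} (hf : CX f) (A : M →ₗ[ℝ] M) : CX (fun x => A (f x)) :=
  fun l => hf (l ∘ₗ A)

theorem CX.add {f g : X → M} (hf : CX f) (hg : CX g) : CX (fun x => f x + g x) := by
  intro l
  simp only [map_add]
  exact (hf l).add (hg l)

theorem s_continuous : Continuous s := by
  unfold s
  fun_prop

theorem CX.Rt {f : X → M} (hf : CX f) (i : ℕ) {u : X → ℝ} (hu : Continuous u) :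
    CX (fun x => IP.Rt i (u x) (f x)) := by
  simp only [Rt_apply]
  exact (hf.smul (s_continuous.comp hu.neg)).add ((hf.lin _).smul (Real.continuous_sin.comp hu))

theorem CX.row {f : X → M} (hf : CX f) (off n : ℕ) {u : X → ℕ → ℝ} (hu : ∀ r, Continuous (fun x => u x r)) :
    CX (fun x => IP.row off (u x) n (f x)) := by
  induction n generalizing f with
  | zero => exact hf
  | succ n ih =>
    simp only [row_succ]
    exact ih (hf.Rt (off + n) ((hu n).add continuous_const))

theorem CX.DR {f : X → M} (hf : CX f) (n : ℕ) {b : X → ℕ → ℝ} (hb : ∀ r, Continuous (fun x => b x r))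
    {p q : X → ℝ} (hp : Continuous p) (hq : Continuous q) : CX (fun x => LD.DR n (b x) (p x) (q x) (f x)) := by
  simp only [DR_apply]
  exact (((hf.row 2 n (u := fun x j => b x j - p x) (fun r => (hb r).sub hp)).row 3 n
    (u := fun x j => b x j - q x) (fun r => (hb r).sub hq)).lin _)

theorem CX.rows {f : X → M} (hf : CX f) (n k : ℕ) {b β : X → ℕ → ℝ} (hb : ∀ r, Continuous (fun x => b x r))
    (hβ : ∀ r, Continuous (fun x => β x r)) : CX (fun x => LD.rows n (b x) (β x) k (f x)) := by
  induction k with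
  | zero => exact hf
  | succ k ih =>
    simp only [rows_succ]
    exact ih.DR n hb (hβ _) (hβ _)

theorem CX.Rc {f : X → M} (hf : CX f) (m k : ℕ) {b β : X → ℕ → ℝ} (hb : ∀ r, Continuous (fun x => b x r))
    (hβ : ∀ r, Continuous (fun x => β x r)) : CX (fun x => LD.Rc m k (b x) (β x) (f x)) := by
  have h1 : (fun x => LD.Rc m k (b x) (β x) (f x)) = fun x =>
      caps m (IP.row 2 (fun j => b x j - β x (2 * k)) (2 * m) (LD.rows (2 * m) (b x) (β x) k (f x))) := rfl
  rw [h1]
  exact (((hf.rows (2 * m) k hb hβ).row 2 (2 * m) (u := fun x j => b x j - β x (2 * k))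
    (fun r => (hb r).sub (hβ _))).lin _)

theorem CX.V {b : X → ℕ → ℝ} (hb : Continuous b) (n : ℕ) : CX (fun x => IP.V n (b x)) := by
  intro l
  have h1 : (fun x => l (IP.V n (b x))) =
      fun x => ∑ σ ∈ (W_finite n).toFinset, IP.V n (b x) σ • l (Finsupp.single σ 1) := by
    funext x
    exact vs_lin_eq n l (V_Sup n (b x))
  rw [h1]
  exact continuous_finsetSum _ (fun σ _ => ((V_Sep n σ).continuous.comp hb).smul continuous_const)

theorem CX.J {b β : X → ℕ → ℝ} (hb : Continuous b) (hβ : Continuous β) (g m k : ℕ) :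
    CX (fun x => LD.J g (IP.V m (b x)) (IP.V k (β x))) := by
  intro l
  have h1 : (fun x => l (LD.J g (IP.V m (b x)) (IP.V k (β x)))) =
      fun x => ∑ σ ∈ (W_finite m).toFinset, IP.V m (b x) σ •
        ∑ τ ∈ (W_finite k).toFinset, IP.V k (β x) τ • l (LD.J g (Finsupp.single σ 1) (Finsupp.single τ 1)) := by
    funext x
    have e1 := vs_lin_eq m (l ∘ₗ (LD.J g).flip (IP.V k (β x))) (V_Sup m (b x))
    have e2 : ∀ σ, (l ∘ₗ (LD.J g).flip (IP.V k (β x))) (Finsupp.single σ 1) =
        ∑ τ ∈ (W_finite k).toFinset, IP.V k (β x) τ • l (LD.J g (Finsupp.single σ 1) (Finsupp.single τ 1)) := by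
      intro σ
      exact vs_lin_eq k (l ∘ₗ (LD.J g (Finsupp.single σ 1))) (V_Sup k (β x))
    rw [sum_congr rfl (fun σ _ => by rw [e2 σ])] at e1
    exact e1
  rw [h1]
  exact continuous_finsetSum _ (fun σ _ => ((V_Sep m σ).continuous.comp hb).smul
    (continuous_finsetSum _ (fun τ _ => ((V_Sep k τ).continuous.comp hβ).smul continuous_const)))

theorem CX.Lv {b β : X → ℕ → ℝ} (hb : Continuous b) (hβ : Continuous β) (m k : ℕ) :
    CX (fun x => LD.Lv m k (b x) (β x)) :=
  (CX.J hb hβ m m k).Rc m k (fun r => (continuous_apply r).comp hb) (fun r => (continuous_apply r).comp hβ)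

theorem FF_comp_continuous {b β : X → ℕ → ℝ} (hb : Continuous b) (hβ : Continuous β) (m k : ℕ) :
    Continuous (fun x => FF m k (b x) (β x)) := CX.Lv hb hβ m k cr

theorem tot_Lv_comp_continuous {b β : X → ℕ → ℝ} (hb : Continuous b) (hβ : Continuous β) (m k : ℕ) :
    Continuous (fun x => tot (LD.Lv m k (b x) (β x))) := CX.Lv hb hβ m k tot

end

/-- the crossing amplitude is continuous -/
theorem FF_continuous (m k : ℕ) : Continuous (fun x : (ℕ → ℝ) × (ℕ → ℝ) => FF m k x.1 x.2) :=
  FF_comp_continuous continuous_fst continuous_snd m k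

theorem tot_Lv_continuous (m k : ℕ) : Continuous (fun x : (ℕ → ℝ) × (ℕ → ℝ) => tot (LD.Lv m k x.1 x.2)) :=
  tot_Lv_comp_continuous continuous_fst continuous_snd m k

end H45LD
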