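import Pool.Agent.Helper45.LD.Bridge
import Pool.Agent.Helper45.LD.Cont
import Pool.Agent.Helper25.LC.Fin
import Pool.Agent.Helper53.LGeo.Main

/-!
L-SHAPED CORRIDOR: from the formula for generic parameters to the exact value of the homogeneous corridor.

`Form m k` : the normalised amplitude is `fform` for all small distinct positive parameters `t`, `u`
(and `v = a = 0`).
`HV_of` : then `pX m k M` tends to `QL m k`.
-/

namespace H45LD
open IP Finset Real LD Filter Topology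

/-- the x-variables of the columns -/
noncomputable def xc (m : ℕ) (t : ℕ → ℝ) : Finset ℝ := (range m).image (fun i => 2 * Real.cos (2 * t i))
/-- the x-variables of the rows -/
noncomputable def yc (k : ℕ) (u : ℕ → ℝ) : Finset ℝ := (range k).image (fun i => -(2 * Real.cos (2 * u i)))

/-- the formula for generic small parameters -/
def Form (m k : ℕ) : Prop := ∃ δ : ℝ, 0 < δ ∧ ∀ t u : ℕ → ℝ, (∀ i, 0 < t i ∧ t i < δ) → (∀ i, 0 < u i ∧ u i < δ) →
  Function.Injective t → Function.Injective u →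
  FF m k (ap1 (2 * m) (pr t) 0) (ap1 (2 * k) (pr u) 0) =
    tot (Lv m k (ap1 (2 * m) (pr t) 0) (ap1 (2 * k) (pr u) 0)) * LCA.fform (xc m t) 2 (yc k u) (-2)

/-- the parameters -/
noncomputable def tn (n i : ℕ) : ℝ := ((n : ℝ) + 1)⁻¹ * ((i : ℝ) + 1)⁻¹

theorem tn_pos (n i : ℕ) : 0 < tn n i := by
  unfold tn
  positivity

theorem tn_le (n i : ℕ) : tn n i ≤ ((n : ℝ) + 1)⁻¹ := by
  unfold tn
  have h1 : (0 : ℝ) < ((n : ℝ) + 1)⁻¹ := by positivity
  have h2 : ((i : ℝ) + 1)⁻¹ ≤ 1 := by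
    apply inv_le_one_of_one_le₀
    have : (0 : ℝ) ≤ i := Nat.cast_nonneg i
    linarith
  calc ((n : ℝ) + 1)⁻¹ * ((i : ℝ) + 1)⁻¹ ≤ ((n : ℝ) + 1)⁻¹ * 1 := mul_le_mul_of_nonneg_left h2 h1.le
    _ = ((n : ℝ) + 1)⁻¹ := mul_one _

theorem tn_inj (n : ℕ) : Function.Injective (tn n) := by
  intro i j h
  unfold tn at h
  have h1 : ((n : ℝ) + 1)⁻¹ ≠ 0 := by positivity
  have h2 := mul_left_cancel₀ h1 h
  have h3 := inv_injective h2
  have h4 : (i : ℝ) = j := by linarith
  exact_mod_cast h4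

theorem inv_tendsto : Tendsto (fun n : ℕ => ((n : ℝ) + 1)⁻¹) atTop (𝓝 0) := by
  have := tendsto_one_div_add_atTop_nhds_zero_nat (𝕜 := ℝ)
  simpa only [one_div] using this

theorem tn_tendsto (i : ℕ) : Tendsto (fun n => tn n i) atTop (𝓝 0) := by
  refine squeeze_zero (fun n => (tn_pos n i).le) (fun n => tn_le n i) inv_tendsto

theorem cos_inj {s t : ℝ} (hs : 0 < s) (hs' : s < 1) (ht : 0 < t) (ht' : t < 1)
    (h : Real.cos (2 * s) = Real.cos (2 * t)) : s = t := by
  have hpi : (2 : ℝ) < π := by linarith [Real.pi_gt_three]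
  have h1 := Real.injOn_cos (show 2 * s ∈ Set.Icc 0 π from ⟨by linarith, by linarith⟩)
    (show 2 * t ∈ Set.Icc 0 π from ⟨by linarith, by linarith⟩) h
  linarith

theorem card_xc {m : ℕ} {t : ℕ → ℝ} (h : ∀ i, 0 < t i ∧ t i < 1) (hi : Function.Injective t) :
    (xc m t).card = m := by
  unfold xc
  rw [card_image_of_injOn, card_range]
  intro i _ j _ hij
  simp only at hij
  exact hi (cos_inj (h i).1 (h i).2 (h j).1 (h j).2 (by linarith))

theorem card_yc {k : ℕ} {u : ℕ → ℝ} (h : ∀ i, 0 < u i ∧ u i < 1) (hi : Function.Injective u) :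
    (yc k u).card = k := by
  unfold yc
  rw [card_image_of_injOn, card_range]
  intro i _ j _ hij
  simp only at hij
  exact hi (cos_inj (h i).1 (h i).2 (h j).1 (h j).2 (by linarith))

/-- `1 - cos (2 x)` is small -/
theorem cos_near {x d : ℝ} (h0 : 0 < x) (h1 : x ≤ d) (hd : d ≤ 1) : |2 * Real.cos (2 * x) - 2| ≤ 4 * d := by
  have h2 := Real.one_sub_sq_div_two_le_cos (x := 2 * x)
  have h3 := Real.cos_le_one (2 * x)
  rw [abs_sub_comm, abs_of_nonneg (by linarith)]
  nlinarith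

theorem pr_tendsto {t : ℕ → ℕ → ℝ} (h : ∀ i, Tendsto (fun n => t n i) atTop (𝓝 0)) (m : ℕ) :
    Tendsto (fun n => ap1 (2 * m) (pr (t n)) 0) atTop (𝓝 (0 : ℕ → ℝ)) := by
  rw [tendsto_pi_nhds]
  intro j
  unfold ap1 pr
  by_cases h1 : j < 2 * m
  · simp only [if_pos h1]
    by_cases h2 : j % 2 = 0
    · simp only [if_pos h2]
      have := (h (j / 2)).neg
      simpa using this
    · simp only [if_neg h2]
      exact h (j / 2)
  · simp only [if_neg h1]
    exact tendsto_const_nhds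

/-- the value at the homogeneous point -/
theorem value_of {m k : ℕ} (hF : Form m k) :
    FF m k 0 0 / tot (Lv m k 0 0) = LCor.PJ m k (H47Perc.LN.lawL m) (H47Perc.LN.lawL k) := by
  obtain ⟨δ, hδ, hF⟩ := hF
  have h0 : Tendsto (fun n => (ap1 (2 * m) (pr (tn n)) 0, ap1 (2 * k) (pr (tn n)) 0)) atTop
      (𝓝 ((0 : ℕ → ℝ), (0 : ℕ → ℝ))) :=
    (pr_tendsto tn_tendsto m).prodMk_nhds (pr_tendsto tn_tendsto k)
  have h1 := ((FF_continuous m k).tendsto ((0 : ℕ → ℝ), (0 : ℕ → ℝ))).comp h0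
  have h2 := ((tot_Lv_continuous m k).tendsto ((0 : ℕ → ℝ), (0 : ℕ → ℝ))).comp h0
  have hsm : ∀ ε > 0, ∀ᶠ n : ℕ in atTop, ((n : ℝ) + 1)⁻¹ < ε := fun ε hε =>
    (inv_tendsto.eventually (gt_mem_nhds hε))
  have hsmall : ∀ᶠ n : ℕ in atTop, ∀ i, 0 < tn n i ∧ tn n i < δ := by
    filter_upwards [hsm δ hδ] with n hn i
    exact ⟨tn_pos n i, lt_of_le_of_lt (tn_le n i) hn⟩
  have hone : ∀ᶠ n : ℕ in atTop, ∀ i, 0 < tn n i ∧ tn n i < 1 := by
    filter_upwards [hsm 1 one_pos] with n hn i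
    exact ⟨tn_pos n i, lt_of_le_of_lt (tn_le n i) hn⟩
  have hlim : Tendsto (fun n => LCA.fform (xc m (tn n)) 2 (yc k (tn n)) (-2)) atTop
      (𝓝 (LCor.PJ m k (H47Perc.LN.lawL m) (H47Perc.LN.lawL k))) := by
    refine LCB.fform_tendsto (H47Perc.LN.lawL_isLaw m) (H47Perc.LN.lawL_isLaw k)
      (v := fun _ => 2) (a := fun _ => -2) ?_ ?_ ?_ ?_ tendsto_const_nhds tendsto_const_nhds
    · filter_upwards [hone] with n hn
      exact card_xc hn (tn_inj n)
    · filter_upwards [hone] with n hn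
      exact card_yc hn (tn_inj n)
    · intro ε hε
      filter_upwards [hsm (ε / 4) (by positivity), hsm 1 one_pos] with n hn hn1 b hb
      unfold xc at hb
      rw [mem_image] at hb
      obtain ⟨i, _, rfl⟩ := hb
      have := cos_near (tn_pos n i) (tn_le n i) hn1.le
      linarith
    · intro ε hε
      filter_upwards [hsm (ε / 4) (by positivity), hsm 1 one_pos] with n hn hn1 b hb
      unfold yc at hb
      rw [mem_image] at hb
      obtain ⟨i, _, rfl⟩ := hb
      have := cos_near (tn_pos n i) (tn_le n i) hn1.le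
      rw [← abs_neg, show -(-(2 * Real.cos (2 * tn n i)) + 2) = 2 * Real.cos (2 * tn n i) - 2 by ring]
      linarith
  have h3 : Tendsto (fun n => FF m k (ap1 (2 * m) (pr (tn n)) 0) (ap1 (2 * k) (pr (tn n)) 0)) atTop
      (𝓝 (tot (Lv m k 0 0) * LCor.PJ m k (H47Perc.LN.lawL m) (H47Perc.LN.lawL k))) := by
    refine (h2.mul hlim).congr' ?_
    filter_upwards [hsmall] with n hn
    exact (hF (tn n) (tn n) hn hn (tn_inj n) (tn_inj n)).symm
  have h4 : FF m k 0 0 = tot (Lv m k 0 0) * LCor.PJ m k (H47Perc.LN.lawL m) (H47Perc.LN.lawL k) :=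
    tendsto_nhds_unique h1 h3
  have hC : (0 : ℕ → ℝ) ∈ Cube := fun j => by
    simp only [Pi.zero_apply, abs_zero]
    positivity
  have h5 : tot (Lv m k 0 0) ≠ 0 := by
    rw [tot_Lv_zero]
    exact mul_ne_zero (Z_ne m hC) (Z_ne k hC)
  rw [h4, mul_div_cancel_left₀ _ h5]

/-- **the exact value of the homogeneous corridor** -/
theorem HV_of (hF : ∀ m k, Form m k) (m k : ℕ) :
    Tendsto (fun M : ℕ => H47Perc.LN.pX m k M) atTop (𝓝 (H47Perc.LN.QL m k)) := by
  have h := pX_tendsto_ratio m k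
  rw [value_of (hF m k)] at h
  exact h

end H45LD
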