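import Pool.Agent.Lead.IP.Lin

/-!
Commutation relations of insertions and deletions of arcs at distant positions.
-/

namespace H45LD
open IP

theorem unskip_ne_iff {b x a : ℕ} (h : a < b) (hx : x ≠ b) : unskip b x = a ↔ x = a := by
  unfold unskip
  split_ifs <;> omega

theorem unskip_inj {b x y : ℕ} (hx : x ≠ b) (hy : y ≠ b) : unskip b x = unskip b y ↔ x = y := by
  unfold unskip
  split_ifs <;> omega

theorem unskip_eq_iff {a x b : ℕ} (h : a ≤ b) (hx : x ≠ a) : unskip a x = b ↔ x = b + 1 := by
  unfold unskip
  split_ifs <;> omega

theorem uu {a b : ℕ} (h : a ≤ b) (x : ℕ) : unskip a (unskip (b + 1) x) = unskip b (unskip a x) := by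
  unfold unskip
  split_ifs <;> omega

theorem uc {a b : ℕ} (h : a ≤ b) {x : ℕ} (hx : x ≠ a) : unskip a (coll (b + 1) x) = coll b (unskip a x) := by
  unfold unskip coll
  split_ifs <;> omega

theorem cu {a b : ℕ} (h : a < b) {x : ℕ} (hx : x ≠ b + 1) : coll a (unskip (b + 1) x) = unskip b (coll a x) := by
  unfold unskip coll
  split_ifs <;> omega

theorem cc {a b : ℕ} (h : a ≤ b) (x : ℕ) : coll a (coll (b + 1) x) = coll b (coll a x) := by
  unfold coll
  split_ifs <;> omega

theorem insS_iff (k : ℕ) (σ : St) (x y : ℕ) :
    insS k σ x y ↔ x = y ∨ (x ≠ k ∧ y ≠ k ∧ σ (unskip k x) (unskip k y)) := Iff.rfl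

theorem ins_even' (k : ℕ) (σ : St) : ins (2 * k) σ = insS k σ := by
  unfold ins
  rw [if_pos (by omega)]
  congr 1
  omega

theorem ins_odd' (k : ℕ) (σ : St) : ins (2 * k + 1) σ = Setoid.comap (coll k) σ := by
  unfold ins
  rw [if_neg (by omega)]
  congr 2
  omega

theorem ins_ins {i j : ℕ} (h : i ≤ j) (σ : St) : ins (j + 2) (ins i σ) = ins i (ins j σ) := by
  apply Setoid.ext
  intro x y
  obtain ⟨a, rfl | rfl⟩ := parity i <;> obtain ⟨b, rfl | rfl⟩ := parity j
  · have hab : a ≤ b := by omega
    rw [show 2 * b + 2 = 2 * (b + 1) by ring, ins_even', ins_even', ins_even', ins_even']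
    simp only [insS_iff, uu hab]
    by_cases hx : x = b + 1
    · subst hx
      by_cases hy : y = b + 1
      · subst hy; simp
      · by_cases hy2 : y = a
        · subst hy2
          have : ¬ (b + 1 = y) := by omega
          simp [this]
        · have h1 : ¬ (b + 1 = y) := by omega
          have h2 : unskip a (b + 1) = b := by unfold unskip; split_ifs <;> omega
          have h3 : ¬ (b = unskip a y) := by
            intro h4
            exact hy ((unskip_eq_iff hab hy2).1 h4.symm)
          simp [h1, h2, h3]
    · by_cases hy : y = b + 1
      · subst hy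
        by_cases hx2 : x = a
        · subst hx2
          have : ¬ (x = b + 1) := hx
          simp [this]
        · have h2 : unskip a (b + 1) = b := by unfold unskip; split_ifs <;> omega
          have h3 : ¬ (unskip a x = b) := by
            intro h4
            exact hx ((unskip_eq_iff hab hx2).1 h4)
          simp [hx, h2, h3]
      · by_cases hx2 : x = a
        · subst hx2
          simp only [ne_eq, hx, hy, not_false_eq_true, true_and, unskip_inj hx hy,
            unskip_ne_iff (by omega : x < b + 1) hx, not_true, false_and, or_false, or_self]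
        · by_cases hy2 : y = a
          · subst hy2
            simp only [ne_eq, hx, hy, not_false_eq_true, true_and, unskip_inj hx hy,
              unskip_ne_iff (by omega : y < b + 1) hy, not_true, false_and, and_false, or_false, or_self]
          · simp only [ne_eq, hx, hy, hx2, hy2, not_false_eq_true, true_and, unskip_inj hx hy,
              unskip_inj hx2 hy2, unskip_ne_iff (by omega : a < b + 1) hx,
              unskip_ne_iff (by omega : a < b + 1) hy, unskip_eq_iff hab hx2, unskip_eq_iff hab hy2]
  · have hab : a ≤ b := by omega
    rw [show 2 * b + 1 + 2 = 2 * (b + 1) + 1 by ring, ins_even', ins_odd', ins_even', ins_odd']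
    simp only [insS_iff, comap_apply]
    by_cases hx : x = a
    · have h1 : coll (b + 1) x = a := by unfold coll; split_ifs <;> omega
      have h2 : coll (b + 1) x = coll (b + 1) y ↔ x = y := by unfold coll; split_ifs <;> omega
      simp [hx] at h1 h2 ⊢
      simp [h1] at h2 ⊢
      exact h2
    · by_cases hy : y = a
      · have h1 : coll (b + 1) y = a := by unfold coll; split_ifs <;> omega
        have h2 : coll (b + 1) x = coll (b + 1) y ↔ x = y := by unfold coll; split_ifs <;> omega
        simp [hy] at h1 h2 ⊢
        simp [h1] at h2 ⊢
        exact h2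
      · have h1 : coll (b + 1) x ≠ a := by unfold coll; split_ifs <;> omega
        have h2 : coll (b + 1) y ≠ a := by unfold coll; split_ifs <;> omega
        simp only [ne_eq, hx, hy, h1, h2, not_false_eq_true, true_and, uc hab hx, uc hab hy]
        constructor
        · rintro (h | h)
          · right
            rw [← uc hab hx, ← uc hab hy, h]
          · exact Or.inr h
        · rintro (h | h)
          · exact Or.inl (by rw [h])
          · exact Or.inr h
  · have hab : a < b := by omega
    rw [show 2 * b + 2 = 2 * (b + 1) by ring, ins_even', ins_odd', ins_odd', ins_even']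
    simp only [insS_iff, comap_apply]
    by_cases hx : x = b + 1
    · have h1 : coll a x = b := by unfold coll; split_ifs <;> omega
      have h2 : coll a x = coll a y ↔ x = y := by unfold coll; split_ifs <;> omega
      simp [hx] at h1 h2 ⊢
      simp [h1] at h2 ⊢
      exact h2.symm
    · by_cases hy : y = b + 1
      · have h1 : coll a y = b := by unfold coll; split_ifs <;> omega
        have h2 : coll a x = coll a y ↔ x = y := by unfold coll; split_ifs <;> omega
        simp [hy] at h1 h2 ⊢
        simp [h1] at h2 ⊢
        exact h2.symm
      · have h1 : coll a x ≠ b := by unfold coll; split_ifs <;> omega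
        have h2 : coll a y ≠ b := by unfold coll; split_ifs <;> omega
        simp only [ne_eq, hx, hy, h1, h2, not_false_eq_true, true_and, cu hab hx, cu hab hy]
        constructor
        · rintro (h | h)
          · exact Or.inl (by rw [h])
          · exact Or.inr h
        · rintro (h | h)
          · right
            rw [h]
          · exact Or.inr h
  · have hab : a ≤ b := by omega
    rw [show 2 * b + 1 + 2 = 2 * (b + 1) + 1 by ring, ins_odd', ins_odd', ins_odd', ins_odd']
    simp only [comap_apply, cc hab]

theorem In_In {i j : ℕ} (h : i ≤ j) (v : M) : In (j + 2) (In i v) = In i (In j v) := by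
  induction v using Finsupp.induction_linear with
  | zero => simp
  | add a b ha hb => simp only [map_add, ha, hb]
  | single σ c => simp [ins_ins h]

theorem In_injective (i : ℕ) {v w : M} (h : In i v = In i w) : v = w := by
  rw [← De_In i v, h, De_In]

theorem De_In_gt {i j : ℕ} (h : i ≤ j) (v : M) : De i (In (j + 2) v) = In j (De i v) := by
  apply In_injective i
  rw [In_De, E_In_lt (by omega), ← In_De i v, In_In h]

theorem De_De {i j : ℕ} (h : i ≤ j) (v : M) : De i (De (j + 2) v) = De j (De i v) := by
  apply In_injective j
  rw [In_De, ← De_E_gt h, ← In_De (j + 2) v, De_In_gt h]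

theorem De_In_lt {i j : ℕ} (h : i ≤ j) (v : M) : De (j + 2) (In i v) = In i (De j v) := by
  apply In_injective (j + 2)
  rw [In_De, E_In_gt h, ← In_De j v, In_In h]

theorem De_In_succ (i : ℕ) (v : M) : De i (In (i + 1) v) = v := by
  rw [← De_E, E_In_succ, De_In]

theorem De_succ_In (i : ℕ) (v : M) : De (i + 1) (In i v) = v := by
  rw [← De_E, E_succ_In, De_In]

end H45LD
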