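import Pool.Agent.Helper45.LD.Loop
import Pool.Agent.Helper45.LD.InsDel
import Pool.Agent.Helper78.LD.Glue
import Pool.Agent.Helper78.LD.Stat

/-!
L-SHAPED CORRIDOR, part [D]: the relation (R1), `r1 : LD.StR1`.

`Rt (2x)` is inserted under the cap of the last column pair, pushed down through the rows (Yang-Baxter) and acts on
`In (2m+1) (V m ..)`; this gives a loose loop of two columns between the columns and the right leg, which is
swallowed by the right leg (`Dc_V`).
-/

namespace H45LD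
open IP Finset Real LD

/-! ### geometry of the corner rectangle -/

theorem DR_apply (n : ℕ) (b : ℕ → ℝ) (p q : ℝ) (v : M) :
    DR n b p q v = De 2 (row 3 (fun j => b j - q) n (row 2 (fun j => b j - p) n v)) := rfl

theorem rows_zero (n : ℕ) (b β : ℕ → ℝ) (v : M) : rows n b β 0 v = v := rfl

theorem rows_succ (n : ℕ) (b β : ℕ → ℝ) (k : ℕ) (v : M) :
    rows n b β (k + 1) v = DR n b (β (2 * k)) (β (2 * k + 1)) (rows n b β k v) := rfl

theorem caps_zero (v : M) : caps 0 v = v := rfl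

theorem caps_succ (m : ℕ) (v : M) : caps (m + 1) v = caps m (De 3 v) := rfl

theorem Rc_apply (m k : ℕ) (b β : ℕ → ℝ) (v : M) : Rc m k b β v =
    caps m (row 2 (fun j => b j - β (2 * k)) (2 * m) (rows (2 * m) b β k v)) := rfl

theorem De_row_right (off : ℕ) (b : ℕ → ℝ) (k : ℕ) {i : ℕ} (h : off + k + 1 ≤ i) (v : M) :
    De i (row off b k v) = row off b k (De i v) := by
  induction k generalizing v with
  | zero => rfl
  | succ k ih =>
    rw [row_succ, row_succ, ih (by omega), De_Rt_lt (by omega : off + k + 2 ≤ i)]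

/-- an R-matrix to the right of the columns and a double row -/
theorem Rt_DR {n j : ℕ} (h : n + 2 ≤ j) (b : ℕ → ℝ) (p q u : ℝ) (v : M) :
    Rt j u (DR n b p q v) = DR n b p q (Rt (j + 2) u v) := by
  rw [DR_apply, DR_apply, ← De_Rt_gt (by omega : 2 ≤ j), Rt_row_right 3 _ n (by omega),
    Rt_row_right 2 _ n (by omega)]

theorem Rt_rows {n j : ℕ} (h : n + 2 ≤ j) (b β : ℕ → ℝ) (k : ℕ) (u : ℝ) (v : M) :
    Rt j u (rows n b β k v) = rows n b β k (Rt (j + 2 * k) u v) := by
  induction k generalizing j v with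
  | zero => rfl
  | succ k ih =>
    rw [rows_succ, rows_succ, Rt_DR h, ih (by omega), show j + 2 + 2 * k = j + 2 * (k + 1) by ring]

/-- a cap to the right of the columns and a double row -/
theorem De_DR {n j : ℕ} (h : n + 2 ≤ j) (b : ℕ → ℝ) (p q : ℝ) (v : M) :
    De j (DR n b p q v) = DR n b p q (De (j + 2) v) := by
  rw [DR_apply, DR_apply, ← De_De (by omega : 2 ≤ j), De_row_right 3 _ n (by omega),
    De_row_right 2 _ n (by omega)]

theorem De_rows {n j : ℕ} (h : n + 2 ≤ j) (b β : ℕ → ℝ) (k : ℕ) (v : M) :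
    De j (rows n b β k v) = rows n b β k (De (j + 2 * k) v) := by
  induction k generalizing j v with
  | zero => rfl
  | succ k ih =>
    rw [rows_succ, rows_succ, De_DR h, ih (by omega), show j + 2 + 2 * k = j + 2 * (k + 1) by ring]

/-- an insertion to the right of the columns -/
theorem DR_In {n j : ℕ} (h : n + 3 ≤ j) (b : ℕ → ℝ) (p q : ℝ) (v : M) :
    DR n b p q (In (j + 2) v) = In j (DR n b p q v) := by
  rw [DR_apply, DR_apply, row_In_right 2 _ n (by omega), row_In_right 3 _ n (by omega),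
    De_In_gt (by omega : 2 ≤ j)]

theorem rows_In {n j : ℕ} (h : n + 3 ≤ j) (b β : ℕ → ℝ) (k : ℕ) (v : M) :
    rows n b β k (In (j + 2 * k) v) = In j (rows n b β k v) := by
  induction k generalizing j v with
  | zero => rfl
  | succ k ih =>
    rw [rows_succ, rows_succ, show j + 2 * (k + 1) = j + 2 + 2 * k by ring, ih (by omega), DR_In h]

theorem DR_congr (n : ℕ) {b b' : ℕ → ℝ} (h : ∀ j < n, b j = b' j) (p q : ℝ) : DR n b p q = DR n b' p q := by
  unfold DR
  rw [row_congr 3 n (b := fun j => b j - q) (b' := fun j => b' j - q) (fun j hj => by simp only [h j hj]),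
    row_congr 2 n (b := fun j => b j - p) (b' := fun j => b' j - p) (fun j hj => by simp only [h j hj])]

theorem rows_congr (n : ℕ) {b b' β β' : ℕ → ℝ} (k : ℕ) (h : ∀ j < n, b j = b' j)
    (h' : ∀ r < 2 * k, β r = β' r) : rows n b β k = rows n b' β' k := by
  induction k with
  | zero => rfl
  | succ k ih =>
    show DR n b _ _ ∘ₗ rows n b β k = DR n b' _ _ ∘ₗ rows n b' β' k
    rw [ih (fun r hr => h' r (by omega)), DR_congr n h, h' (2 * k) (by omega), h' (2 * k + 1) (by omega)]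

theorem Rc_congr (m k : ℕ) {b b' β β' : ℕ → ℝ} (h : ∀ j < 2 * m, b j = b' j)
    (h' : ∀ r < 2 * k + 1, β r = β' r) : Rc m k b β = Rc m k b' β' := by
  unfold Rc
  rw [rows_congr (2 * m) k h (fun r hr => h' r (by omega)),
    row_congr 2 (2 * m) (b := fun j => b j - β (2 * k)) (b' := fun j => b' j - β' (2 * k))
      (fun j hj => by simp only [h j hj, h' (2 * k) (by omega)])]

/-- the last column crosses a double row -/
theorem DR_col (n : ℕ) (b : ℕ → ℝ) (p q : ℝ) (v : M) :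
    DR (n + 1) b p q v = DR n b p q (Rt (n + 3) (b n - q + π / 6) (Rt (n + 2) (b n - p + π / 6) v)) := by
  rw [DR_apply, DR_apply, row_succ 3, row_succ 2, show 3 + n = n + 3 by omega, show 2 + n = n + 2 by omega,
    Rt_row_right 2 _ n (by omega)]

/-- the last column crosses all the rows -/
theorem rows_col (n : ℕ) (b β : ℕ → ℝ) (k : ℕ) (v : M) :
    rows (n + 1) b β k v = rows n b β k (col (n + 2) (fun r => b n - β r + π / 6) (2 * k) v) := by
  induction k generalizing v with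
  | zero => rfl
  | succ k ih =>
    rw [rows_succ, rows_succ, DR_col, ih, Rt_rows (by omega), Rt_rows (by omega),
      show 2 * (k + 1) = 2 * k + 1 + 1 by ring, col_succ, col_succ,
      show n + 2 + (2 * k + 1) = n + 3 + 2 * k by ring]

theorem top_col (n k : ℕ) (b β : ℕ → ℝ) (v : M) :
    row 2 (fun j => b j - β (2 * k)) (n + 1) (rows (n + 1) b β k v) =
      row 2 (fun j => b j - β (2 * k)) n (rows n b β k
        (col (n + 2) (fun r => b n - β r + π / 6) (2 * k + 1) v)) := by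
  rw [row_succ, rows_col, show 2 + n = n + 2 by omega, Rt_rows (by omega), col_succ]

theorem caps_succ' (m : ℕ) (v : M) : caps (m + 1) v = caps m (De (2 * m + 3) v) := by
  induction m generalizing v with
  | zero => rfl
  | succ m ih =>
    rw [caps_succ (m + 1), ih, caps_succ m, show 2 * (m + 1) + 3 = (2 * m + 3) + 2 by ring,
      De_De (by omega : 3 ≤ 2 * m + 3)]

/-- the last column pair crosses the rows first -/
theorem Rc_col (m k : ℕ) (b β : ℕ → ℝ) (v : M) :
    Rc (m + 1) k b β v = Rc m k b β (De (2 * m + 2 * k + 3)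
      (col (2 * m + 2) (fun r => b (2 * m) - β r + π / 6) (2 * k + 1)
        (col (2 * m + 3) (fun r => b (2 * m + 1) - β r + π / 6) (2 * k + 1) v))) := by
  rw [Rc_apply, Rc_apply, show 2 * (m + 1) = 2 * m + 1 + 1 by ring, top_col, top_col, caps_succ',
    De_row_right 2 _ (2 * m) (by omega), De_rows (by omega),
    show 2 * m + 3 + 2 * k = 2 * m + 2 * k + 3 by ring]

theorem J_col_right (m i : ℕ) (c : ℕ → ℝ) (n : ℕ) (v w : M) :
    J m v (col i c n w) = col (i + (2 * m + 2)) c n (J m v w) := by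
  induction n with
  | zero => rfl
  | succ n ih =>
    rw [col_succ, col_succ, J_Rt_right, ih, show i + n + (2 * m + 2) = i + (2 * m + 2) + n by ring]

/-- the loose column loop disappears -/
theorem loose_loop (m k : ℕ) (b β : ℕ → ℝ) (x : ℝ) (h0 : b (2 * m) = -x) (h1 : b (2 * m + 1) = x) (v : M) :
    Rc (m + 1) k b β (J (m + 1) (In (2 * m) v) (V k β)) = CC k β x • Rc m k b β (J m v (V k β)) := by
  rw [J_In_left (le_refl _), Rc_col, h0, h1]
  have e1 := J_In_right m 0 v (V k β)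
  rw [zero_add] at e1
  have e2 := J_col_right m 1 (fun r => x - β r + π / 6) (2 * k + 1) v (In 0 (V k β))
  rw [show 1 + (2 * m + 2) = 2 * m + 3 by ring] at e2
  have e3 := J_col_right m 0 (fun r => -x - β r + π / 6) (2 * k + 1) v
    (col 1 (fun r => x - β r + π / 6) (2 * k + 1) (In 0 (V k β)))
  rw [zero_add] at e3
  have e4 := J_De_right m (2 * k + 1) v (col 0 (fun r => -x - β r + π / 6) (2 * k + 1)
    (col 1 (fun r => x - β r + π / 6) (2 * k + 1) (In 0 (V k β))))
  rw [show 2 * k + 1 + (2 * m + 2) = 2 * m + 2 * k + 3 by ring] at e4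
  rw [← e1, ← e2, ← e3, ← e4, ← Dc_apply, Dc_V, map_smul, map_smul]

/-! ### pushing an R-matrix down through the rows -/

theorem DR_sw {n i : ℕ} (h : i + 2 ≤ n) (b : ℕ → ℝ) (p q : ℝ) (v : M) :
    DR n (sw i b) p q (Rt (i + 2) (b i - b (i + 1)) v) = Rt (i + 2) (b i - b (i + 1)) (DR n b p q v) := by
  obtain ⟨l, rfl⟩ : ∃ l, n = i + 2 + l := ⟨n - (i + 2), by omega⟩
  have hs : ∀ c : ℝ, (fun j => sw i b j - c) = sw i (fun j => b j - c) := fun c => rfl
  rw [DR_apply, DR_apply, hs, hs]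
  have h2 := row_sw 2 i (fun j => b j - p) l v
  simp only [sub_sub_sub_cancel_right] at h2
  have h3 := row_sw 3 i (fun j => b j - q) l (row 2 (fun j => b j - p) (i + 2 + l) v)
  simp only [sub_sub_sub_cancel_right] at h3
  rw [show i + 2 = 2 + i by omega] at *
  rw [h2, show 2 + i + 1 = 3 + i by omega, h3, show 3 + i + 1 = 2 + i + 2 by omega, De_Rt_gt (by omega)]

theorem rows_sw {n i : ℕ} (h : i + 2 ≤ n) (b β : ℕ → ℝ) (k : ℕ) (v : M) :
    rows n (sw i b) β k (Rt (i + 2) (b i - b (i + 1)) v) = Rt (i + 2) (b i - b (i + 1)) (rows n b β k v) := by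
  induction k generalizing v with
  | zero => rfl
  | succ k ih => rw [rows_succ, rows_succ, ih, DR_sw h]

theorem De_Rt_self (i : ℕ) (u : ℝ) (v : M) : De i (Rt i u v) = s u • De i v := by
  rw [Rt_apply, map_add, map_smul, map_smul, De_E, ← add_smul]
  congr 1
  have := s_zero_sub u
  linarith

/-- the R-matrix of the last column pair -/
theorem Rc_sw (m k : ℕ) (b β : ℕ → ℝ) (v : M) :
    Rc (m + 1) k (sw (2 * m) b) β (Rt (2 * m + 2) (b (2 * m) - b (2 * m + 1)) v) =
      s (b (2 * m) - b (2 * m + 1)) • Rc (m + 1) k b β v := by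
  have hs : (fun j => sw (2 * m) b j - β (2 * k)) = sw (2 * m) (fun j => b j - β (2 * k)) := rfl
  rw [Rc_apply, Rc_apply, rows_sw (by omega), hs]
  have h2 := row_sw 2 (2 * m) (fun j => b j - β (2 * k)) 0 (rows (2 * (m + 1)) b β k v)
  simp only [sub_sub_sub_cancel_right, add_zero] at h2
  rw [show 2 + 2 * m = 2 * m + 2 by ring] at h2
  rw [show 2 * (m + 1) = 2 * m + 2 by ring] at *
  rw [h2, caps_succ', show 2 * m + 2 + 1 = 2 * m + 3 by ring, De_Rt_self, map_smul, caps_succ']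

/-! ### (R1) -/

theorem ap3_lt {n j : ℕ} (h : j < n) (b : ℕ → ℝ) (p q r : ℝ) : ap3 n b p q r j = b j := by
  unfold ap3
  rw [if_pos h]
theorem ap3_0 (n : ℕ) (b : ℕ → ℝ) (p q r : ℝ) : ap3 n b p q r n = p := by
  unfold ap3
  rw [if_neg (by omega), if_pos rfl]
theorem ap3_1 (n : ℕ) (b : ℕ → ℝ) (p q r : ℝ) : ap3 n b p q r (n + 1) = q := by
  unfold ap3
  rw [if_neg (by omega), if_neg (by omega), if_pos rfl]
theorem ap3_2 (n : ℕ) (b : ℕ → ℝ) (p q r : ℝ) : ap3 n b p q r (n + 2) = r := by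
  unfold ap3
  rw [if_neg (by omega), if_neg (by omega), if_neg (by omega)]
theorem ap1_lt {n j : ℕ} (h : j < n) (b : ℕ → ℝ) (p : ℝ) : ap1 n b p j = b j := by
  unfold ap1
  rw [if_pos h]
theorem ap1_n (n : ℕ) (b : ℕ → ℝ) (p : ℝ) : ap1 n b p n = p := by
  unfold ap1
  rw [if_neg (by omega)]

theorem V_ap1_neg (m : ℕ) (b : ℕ → ℝ) (x : ℝ) : V m (ap1 (2 * m) b (-x)) = V m (ap1 (2 * m) b x) := by
  rw [← V_ngR]
  apply Vc
  intro j hj
  unfold ng
  rcases eq_or_ne j (2 * m) with rfl | h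
  · rw [Function.update_self, ap1_n, ap1_n, neg_neg]
  · rw [Function.update_of_ne h, ap1_lt (by omega), ap1_lt (by omega)]

/-- `V (m+1)` with the last three parameters `p, -p, -p + π/3` -/
theorem V_ap3 (m : ℕ) (b : ℕ → ℝ) (p : ℝ) :
    V (m + 1) (ap3 (2 * m) b p (-p) (-p + π / 3)) =
      K (m + 1) (2 * m + 1) (ap3 (2 * m) b p (-p) (-p + π / 3)) • In (2 * m + 1) (V m (ap1 (2 * m) b p)) := by
  rw [V_rec (n := m) (i := 2 * m + 1) (by omega) _
    (by rw [ap3_1, show 2 * m + 1 + 1 = 2 * m + 2 by ring, ap3_2])]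
  congr 2
  apply Vc
  intro j hj
  unfold rem
  rw [if_pos hj]
  rcases eq_or_ne j (2 * m) with rfl | h
  · rw [ap3_0, ap1_n]
  · rw [ap3_lt (by omega), ap1_lt (by omega)]

theorem Lv_ap3 (m k : ℕ) (b β : ℕ → ℝ) (p : ℝ) :
    Lv (m + 1) k (ap3 (2 * m) b p (-p) (-p + π / 3)) β =
      K (m + 1) (2 * m + 1) (ap3 (2 * m) b p (-p) (-p + π / 3)) •
        Rc (m + 1) k (ap3 (2 * m) b p (-p) 0) β
          (J (m + 1) (In (2 * m + 1) (V m (ap1 (2 * m) b p))) (V k β)) := by
  unfold Lv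
  rw [V_ap3, map_smul, LinearMap.smul_apply, map_smul]
  rw [Rc_congr (m + 1) k (b := ap3 (2 * m) b p (-p) (-p + π / 3)) (b' := ap3 (2 * m) b p (-p) 0) (β := β)
    (β' := β) ?_ (fun _ _ => rfl)]
  intro j hj
  unfold ap3
  split_ifs <;> first | rfl | omega

theorem sw_ap3 (m : ℕ) (b : ℕ → ℝ) (p q r : ℝ) :
    sw (2 * m) (ap3 (2 * m) b p q r) = ap3 (2 * m) b q p r := by
  funext j
  rcases eq_or_ne j (2 * m) with rfl | h
  · rw [sw_left, ap3_1, ap3_0]
  · rcases eq_or_ne j (2 * m + 1) with rfl | h2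
    · rw [sw_right, ap3_1, ap3_0]
    · rw [sw_of_ne _ h h2]
      unfold ap3
      split_ifs <;> first | rfl | omega

/-- the relation for the operators -/
theorem R1_op (m k : ℕ) (b β : ℕ → ℝ) (x : ℝ) (v : M) :
    s (2 * x) • Rc (m + 1) k (ap3 (2 * m) b x (-x) 0) β (J (m + 1) (In (2 * m + 1) v) (V k β)) =
      s (-(2 * x)) • Rc (m + 1) k (ap3 (2 * m) b (-x) x 0) β (J (m + 1) (In (2 * m + 1) v) (V k β)) +
        (Real.sin (2 * x) * CC k β x) • Rc m k b β (J m v (V k β)) := by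
  have h := Rc_sw m k (ap3 (2 * m) b x (-x) 0) β (J (m + 1) (In (2 * m + 1) v) (V k β))
  rw [sw_ap3, ap3_0, ap3_1, show x - -x = 2 * x by ring, ← J_Rt_left (by omega : 2 * m + 1 < 2 * (m + 1)),
    Rt_apply, E_In_succ, map_add, map_smul, map_smul, LinearMap.add_apply, LinearMap.smul_apply,
    LinearMap.smul_apply, map_add, map_smul, map_smul,
    loose_loop m k (ap3 (2 * m) b (-x) x 0) β x (ap3_0 _ _ _ _ _) (ap3_1 _ _ _ _ _) v] at h
  rw [← h, smul_smul, Rc_congr m k (b := ap3 (2 * m) b (-x) x 0) (b' := b) (β := β) (β' := β)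
    (fun j hj => ap3_lt hj _ _ _ _) (fun _ _ => rfl)]

theorem r1 : StR1 := by
  intro m k b β x
  have h1 := Lv_ap3 m k b β x
  have h2 := Lv_ap3 m k b β (-x)
  rw [neg_neg, V_ap1_neg] at h2
  have h3 := R1_op m k b β x (V m (ap1 (2 * m) b x))
  have h4 : Lv m k (ap1 (2 * m) b x) β = Rc m k b β (J m (V m (ap1 (2 * m) b x)) (V k β)) := by
    unfold Lv
    rw [Rc_congr m k (b := ap1 (2 * m) b x) (b' := b) (β := β) (β' := β) (fun j hj => ap1_lt hj _ _)
      (fun _ _ => rfl)]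
  have hCC : ∏ r ∈ range (2 * k + 1), (s (x - β r + π / 6) * s (-x - β r + π / 6)) = CC k β x := rfl
  rw [h1, h2, h4, hCC]
  set A := Rc (m + 1) k (ap3 (2 * m) b x (-x) 0) β (J (m + 1) (In (2 * m + 1) (V m (ap1 (2 * m) b x))) (V k β))
  set B := Rc (m + 1) k (ap3 (2 * m) b (-x) x 0) β (J (m + 1) (In (2 * m + 1) (V m (ap1 (2 * m) b x))) (V k β))
  set C := Rc m k b β (J m (V m (ap1 (2 * m) b x)) (V k β))
  set K1 := K (m + 1) (2 * m + 1) (ap3 (2 * m) b x (-x) (-x + π / 3))
  set K2 := K (m + 1) (2 * m + 1) (ap3 (2 * m) b (-x) x (x + π / 3))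
  have h5 : (K1 * K2) • (s (2 * x) • A) = (K1 * K2) • (s (-(2 * x)) • B + (Real.sin (2 * x) * CC k β x) • C) := by
    rw [h3]
  rw [smul_add, smul_smul, smul_smul, smul_smul] at h5
  rw [smul_smul, smul_smul, eq_sub_iff_add_eq]
  have e1 : K1 * s (-(2 * x)) * K2 = K1 * K2 * s (-(2 * x)) := by ring
  have e2 : K1 * K2 * Real.sin (2 * x) * CC k β x = K1 * K2 * (Real.sin (2 * x) * CC k β x) := by ring
  have e3 : K2 * s (2 * x) * K1 = K1 * K2 * s (2 * x) := by ring
  rw [e1, e2, e3, h5]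

end H45LD
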