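import Pool.Agent.Helper45.LGeo.JProb
import Pool.Agent.Helper78.LD.Push

/-!
L-SHAPED CORRIDOR: the J-frame of `Helper45/LGeo` is the J-frame of `Helper78/LD`:
`ind01 (TJ m k (GJ m v w)) = cr (Rc m k 0 0 (J m v w))`.
-/

namespace H45LD
open IP Finset Real LD Filter Topology

theorem gj_eq (m : ℕ) (σ τ : St) : H47Perc.LN.gj m σ τ = gl m σ τ := by
  apply Setoid.ext
  intro x y
  rw [H47Perc.LN.gj_iff, gl_iff, Nat.sub_sub, Nat.sub_sub]
  rfl

theorem GJ_eq (m : ℕ) : H47Perc.LN.GJ m = J m := by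
  apply bil_ext
  intro σ τ
  rw [H47Perc.LN.GJ_single, J_single_single, gj_eq]

theorem rw0_eq (off n : ℕ) : H47Perc.LN.rw0 off n = row off (fun _ => 0) n := rfl

theorem row_zz (off n : ℕ) : row off (fun j => (0 : ℕ → ℝ) j - 0) n = row off (fun _ => 0) n := by
  apply row_congr
  intro j _
  simp

theorem RW_eq (m : ℕ) : H47Perc.LN.RW m = DR (2 * m) 0 0 0 := by
  unfold H47Perc.LN.RW DR
  rw [rw0_eq, rw0_eq, row_zz, row_zz]

theorem RW_pow (m k : ℕ) : H47Perc.LN.RW m ^ k = rows (2 * m) 0 0 k := by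
  induction k with
  | zero => rfl
  | succ k ih =>
    rw [pow_succ', ih, RW_eq]
    rfl

theorem De_pow (m : ℕ) : (De 3 : M →ₗ[ℝ] M) ^ m = caps m := by
  induction m with
  | zero => rfl
  | succ m ih =>
    rw [pow_succ, ih]
    rfl

theorem TJ_eq (m k : ℕ) : H47Perc.LN.TJ m k = Rc m k 0 0 := by
  unfold H47Perc.LN.TJ Rc
  rw [De_pow, RW_pow, rw0_eq]
  congr 2
  apply row_congr
  intro j _
  simp

theorem ind01_eq (v : M) : H47Perc.LN.ind01 v = cr v := by
  apply M_ind (p := fun v => H47Perc.LN.ind01 v = cr v) v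
  · simp
  · intro v w hv hw
    rw [map_add, map_add, hv, hw]
  · intro σ x
    unfold H47Perc.LN.ind01 cr
    rw [Finsupp.lsum_single, Finsupp.lsum_single]
    by_cases h : σ 0 1
    · rw [if_pos h, if_pos h, one_smul]
    · rw [if_neg h, if_neg h, zero_smul]

/-- the crossing probability is the normalised amplitude at the homogeneous point -/
theorem pX_tendsto_FF (m k : ℕ) : Tendsto (fun M : ℕ => H47Perc.LN.pX m k M) atTop
    (𝓝 (FF m k 0 0 / (Z m 0 * Z k 0))) := by
  have h := H47Perc.LN.pX_tendstoJ m k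
  have hC : (0 : ℕ → ℝ) ∈ Cube := fun j => by
    simp only [Pi.zero_apply, abs_zero]
    positivity
  have e : H47Perc.LN.ind01 (H47Perc.LN.TJ m k (H47Perc.LN.GJ m (IP.P m 0) (IP.P k 0))) =
      FF m k 0 0 / (Z m 0 * Z k 0) := by
    rw [GJ_eq, TJ_eq, ind01_eq, P_eq m hC, P_eq k hC]
    simp only [map_smul, LinearMap.smul_apply, smul_eq_mul]
    unfold FF Lv
    have h1 := Z_ne m hC
    have h2 := Z_ne k hC
    field_simp
  rw [e] at h
  exact h

/-- the total mass at the homogeneous point -/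
theorem tot_Lv_zero (m k : ℕ) : tot (Lv m k 0 0) = Z m 0 * Z k 0 := by
  have hr : ∀ (off n : ℕ) (v : M), tot (row off (fun _ => (0 : ℝ) - 0) n v) = tot v := by
    intro off n v
    rw [tot_row, prod_eq_one, one_mul]
    intro j _
    simp only [sub_zero, zero_add]
    unfold s
    rw [show π / 3 + π / 6 = π / 2 by ring, Real.sin_pi_div_two]
  have hrows : ∀ v : M, tot (rows (2 * m) 0 0 k v) = tot v := by
    intro v
    induction k generalizing v with
    | zero => rfl
    | succ k ih =>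
      rw [rows_succ, DR_apply, tot_De]
      simp only [Pi.zero_apply]
      rw [hr 3, hr 2, ih]
  have hcaps : ∀ (m : ℕ) (v : M), tot (caps m v) = tot v := by
    intro m
    induction m with
    | zero => intro v; rfl
    | succ m ih =>
      intro v
      rw [caps_succ, ih, tot_De]
  unfold Lv Rc
  rw [LinearMap.comp_apply, LinearMap.comp_apply, hcaps]
  simp only [Pi.zero_apply]
  rw [hr, hrows, tot_J]
  rfl

theorem pX_tendsto_ratio (m k : ℕ) : Tendsto (fun M : ℕ => H47Perc.LN.pX m k M) atTop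
    (𝓝 (FF m k 0 0 / tot (Lv m k 0 0))) := by
  rw [tot_Lv_zero]
  exact pX_tendsto_FF m k

end H45LD
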