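import Pool.Agent.Lead.IP.Recur

/-!
L-SHAPED CORRIDOR, part [D], (R1): a loose loop made of two columns is swallowed by the right leg.

`col off c n` : a strand moves from position `off` to position `off + n` (arguments `c 0, c 1, ...`).
`loop_swallow` : `De (2k+1) ∘ (two columns with parameters -x, x cross the 2k+1 rows) ∘ In 0` has the
eigenvector `V k β`.
-/

namespace H45LD
open IP Finset Real

/-! ### a strand crosses `n` strands to its right -/

noncomputable def col (off : ℕ) (c : ℕ → ℝ) : ℕ → M →ₗ[ℝ] M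
  | 0 => LinearMap.id
  | n + 1 => Rt (off + n) (c n) ∘ₗ col off c n

theorem col_zero (off : ℕ) (c : ℕ → ℝ) (v : M) : col off c 0 v = v := rfl

theorem col_succ (off : ℕ) (c : ℕ → ℝ) (n : ℕ) (v : M) :
    col off c (n + 1) v = Rt (off + n) (c n) (col off c n v) := rfl

theorem col_congr (off n : ℕ) {c c' : ℕ → ℝ} (h : ∀ r < n, c r = c' r) : col off c n = col off c' n := by
  induction n with
  | zero => rfl
  | succ n ih =>
    show Rt (off + n) (c n) ∘ₗ col off c n = Rt (off + n) (c' n) ∘ₗ col off c' n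
    rw [ih (fun j hj => h j (by omega)), h n (by omega)]

theorem Vc {n : ℕ} {b b' : ℕ → ℝ} (h : ∀ j < 2 * n + 1, b j = b' j) : V n b = V n b' := by
  ext σ
  exact (V_Sep n σ).2 b b' h

/-- the strand `i` moved to the position `i + l` -/
def rot (i l : ℕ) (b : ℕ → ℝ) : ℕ → ℝ := fun j =>
  if j < i then b j else if j < i + l then b (j + 1) else if j = i + l then b i else b j

theorem rot_zero (i : ℕ) (b : ℕ → ℝ) : rot i 0 b = b := by
  funext j
  unfold rot
  split_ifs with h1 h2 h3
  · rfl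
  · omega
  · rw [h3]; rfl
  · rfl

theorem rot_self (i l : ℕ) (b : ℕ → ℝ) : rot i l b (i + l) = b i := by
  unfold rot
  rw [if_neg (by omega), if_neg (by omega), if_pos rfl]

theorem rot_gt {i l j : ℕ} (h : i + l < j) (b : ℕ → ℝ) : rot i l b j = b j := by
  unfold rot
  rw [if_neg (by omega), if_neg (by omega), if_neg (by omega)]

theorem rot_lt {i l j : ℕ} (h : j < i) (b : ℕ → ℝ) : rot i l b j = b j := by
  unfold rot
  rw [if_pos h]

theorem rot_mid {i l j : ℕ} (h : i ≤ j) (h2 : j < i + l) (b : ℕ → ℝ) : rot i l b j = b (j + 1) := by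
  unfold rot
  rw [if_neg (by omega), if_pos h2]

theorem rot_succ (i l : ℕ) (b : ℕ → ℝ) : rot i (l + 1) b = sw (i + l) (rot i l b) := by
  funext j
  rcases eq_or_ne j (i + l) with rfl | h1
  · rw [sw_left, rot_mid (by omega) (by omega), rot_gt (by omega)]
  · rcases eq_or_ne j (i + l + 1) with rfl | h2
    · rw [sw_right, rot_self, show i + l + 1 = i + (l + 1) by omega, rot_self]
    · rw [sw_of_ne _ h1 h2]
      unfold rot
      split_ifs <;> first | rfl | omega

/-- the strand `i` of `V` moves to the right -/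
theorem V_col {n : ℕ} (i l : ℕ) (h : i + l ≤ 2 * n) (b : ℕ → ℝ) :
    col i (fun r => b i - b (i + 1 + r)) l (V n b) =
      (∏ r ∈ range l, s (b i - b (i + 1 + r))) • V n (rot i l b) := by
  induction l with
  | zero => rw [col_zero, prod_range_zero, one_smul, rot_zero]
  | succ l ih =>
    rw [col_succ, ih (by omega), map_smul, rot_succ, prod_range_succ, mul_smul]
    have h1 := V_sw (n := n) (i := i + l) (by omega) (rot i l b)
    rw [rot_self, rot_gt (by omega), show i + l + 1 = i + 1 + l by omega] at h1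
    rw [h1]

/-! ### continuity -/

/-- weakly continuous vector valued functions -/
def CV (f : ℝ → M) : Prop := ∀ l : M →ₗ[ℝ] ℝ, Continuous (fun x => l (f x))

theorem CV_const (v : M) : CV (fun _ => v) := fun _ => continuous_const

theorem CV.smul {f : ℝ → M} (hf : CV f) {g : ℝ → ℝ} (hg : Continuous g) : CV (fun x => g x • f x) := by
  intro l
  simp only [map_smul, smul_eq_mul]
  exact hg.mul (hf l)

theorem CV.lin {f : ℝ → M} (hf : CV f) (A : M →ₗ[ℝ] M) : CV (fun x => A (f x)) :=
  fun l => hf (l ∘ₗ A)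

theorem CV.add {f g : ℝ → M} (hf : CV f) (hg : CV g) : CV (fun x => f x + g x) := by
  intro l
  simp only [map_add]
  exact (hf l).add (hg l)

theorem s_cont : Continuous s := by
  unfold s
  fun_prop

theorem CV.Rt {f : ℝ → M} (hf : CV f) (i : ℕ) {u : ℝ → ℝ} (hu : Continuous u) :
    CV (fun x => IP.Rt i (u x) (f x)) := by
  simp only [Rt_apply]
  exact (hf.smul (s_cont.comp hu.neg)).add ((hf.lin _).smul (Real.continuous_sin.comp hu))

theorem CV.col {f : ℝ → M} (hf : CV f) (off n : ℕ) {u : ℝ → ℕ → ℝ} (hu : ∀ r, Continuous (fun x => u x r)) :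
    CV (fun x => H45LD.col off (u x) n (f x)) := by
  induction n with
  | zero => exact hf
  | succ n ih => exact ih.Rt (off + n) (hu n)

theorem CV_ext {f g : ℝ → M} (hf : CV f) (hg : CV g) {S : Set ℝ} (hS : Dense S) (h : ∀ x ∈ S, f x = g x) :
    f = g := by
  funext x
  ext σ
  have h1 : Set.EqOn (fun x => (Finsupp.lapply σ : M →ₗ[ℝ] ℝ) (f x))
      (fun x => (Finsupp.lapply σ : M →ₗ[ℝ] ℝ) (g x)) S := by
    intro y hy
    simp only
    rw [h y hy]
  exact congrFun (Continuous.ext_on hS (hf _) (hg _) h1) x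

/-! ### the loop -/

/-- the factor -/
noncomputable def CC (k : ℕ) (β : ℕ → ℝ) (x : ℝ) : ℝ :=
  ∏ r ∈ range (2 * k + 1), (s (x - β r + π / 6) * s (-x - β r + π / 6))

theorem CC_neg (k : ℕ) (β : ℕ → ℝ) (x : ℝ) : CC k β (-x) = CC k β x := by
  unfold CC
  apply prod_congr rfl
  intro r _
  rw [neg_neg, mul_comm]

theorem s_pi_six (x : ℝ) : s (x + π / 6) = Real.cos x := by
  unfold s
  rw [show π / 3 + (x + π / 6) = x + π / 2 by ring, Real.sin_add_pi_div_two]

theorem CC_eq (k : ℕ) (β : ℕ → ℝ) (x : ℝ) :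
    CC k β x = ∏ r ∈ range (2 * k + 1), (Real.cos (β r - x) * Real.cos (β r + x)) := by
  unfold CC
  apply prod_congr rfl
  intro r _
  rw [s_pi_six, s_pi_six, ← Real.cos_neg (x - β r), ← Real.cos_neg (-x - β r)]
  congr 2 <;> ring

theorem CC_cont (k : ℕ) (β : ℕ → ℝ) : Continuous (CC k β) := by
  unfold CC
  refine continuous_finsetProd _ fun r _ => ?_
  exact (s_cont.comp (by fun_prop)).mul (s_cont.comp (by fun_prop))

theorem CC_dense (k : ℕ) (β : ℕ → ℝ) : Dense {x : ℝ | CC k β x ≠ 0} := by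
  have hA : ∀ c : ℝ, {x : ℝ | Real.cos (c - x) = 0}.Countable := by
    intro c
    refine (Set.countable_range (fun n : ℤ => c - (2 * (n : ℝ) + 1) * π / 2)).mono ?_
    intro x hx
    obtain ⟨n, hn⟩ := Real.cos_eq_zero_iff.mp hx
    exact ⟨n, by simp only; linarith⟩
  have hB : ∀ c : ℝ, {x : ℝ | Real.cos (c + x) = 0}.Countable := by
    intro c
    refine (Set.countable_range (fun n : ℤ => (2 * (n : ℝ) + 1) * π / 2 - c)).mono ?_
    intro x hx
    obtain ⟨n, hn⟩ := Real.cos_eq_zero_iff.mp hx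
    exact ⟨n, by simp only; linarith⟩
  have h1 : (⋃ r : ℕ, ({x : ℝ | Real.cos (β r - x) = 0} ∪ {x : ℝ | Real.cos (β r + x) = 0})).Countable :=
    Set.countable_iUnion (fun r => (hA (β r)).union (hB (β r)))
  refine (h1.dense_compl ℝ).mono ?_
  intro x hx
  simp only [Set.mem_compl_iff, Set.mem_iUnion, Set.mem_union, Set.mem_setOf_eq, not_exists, not_or] at hx
  show CC k β x ≠ 0
  rw [CC_eq]
  refine prod_ne_zero_iff.2 fun r _ => mul_ne_zero (hx r).1 (hx r).2

/-- the sequence `p, q, β 0, β 1, ...` -/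
def pq (p q : ℝ) (β : ℕ → ℝ) : ℕ → ℝ := fun j => if j = 0 then p else if j = 1 then q else β (j - 2)

theorem pq_zero (p q : ℝ) (β : ℕ → ℝ) : pq p q β 0 = p := rfl
theorem pq_one (p q : ℝ) (β : ℕ → ℝ) : pq p q β 1 = q := rfl
theorem pq_add (p q : ℝ) (β : ℕ → ℝ) (r : ℕ) : pq p q β (r + 2) = β r := rfl

/-- the operator of the loop -/
noncomputable def Dc (k : ℕ) (β : ℕ → ℝ) (x : ℝ) : M →ₗ[ℝ] M :=
  De (2 * k + 1) ∘ₗ col 0 (fun r => -x - β r + π / 6) (2 * k + 1) ∘ₗ
    col 1 (fun r => x - β r + π / 6) (2 * k + 1) ∘ₗ In 0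

theorem Dc_apply (k : ℕ) (β : ℕ → ℝ) (x : ℝ) (v : M) : Dc k β x v =
    De (2 * k + 1) (col 0 (fun r => -x - β r + π / 6) (2 * k + 1)
      (col 1 (fun r => x - β r + π / 6) (2 * k + 1) (In 0 v))) := rfl

/-- `V (k+1)` with the first two parameters in the recursion position -/
theorem V_start (k : ℕ) (β : ℕ → ℝ) (x : ℝ) :
    V (k + 1) (pq (-x + π / 6) (x + π / 6) β) = CC k β x • In 0 (V k β) := by
  have h1 : ng 0 (pq (x - π / 6) (x + π / 6) β) = pq (-x + π / 6) (x + π / 6) β := by
    funext j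
    unfold ng
    rcases eq_or_ne j 0 with rfl | hj
    · rw [Function.update_self, pq_zero, pq_zero]; ring
    · rw [Function.update_of_ne hj]
      unfold pq
      rw [if_neg hj, if_neg hj]
  rw [← h1, V_ngL]
  have h2 : rem 0 (pq (x - π / 6) (x + π / 6) β) = β := by
    funext j
    unfold rem
    rw [if_neg (by omega), pq_add]
  rw [V_rec (n := k) (i := 0) (by omega) (pq (x - π / 6) (x + π / 6) β)
    (by rw [pq_one, pq_zero]; ring), K_eq (by omega), h2, pq_zero]
  congr 1
  rw [CC_eq]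
  unfold KK
  apply prod_congr rfl
  intro r _
  rw [show β r - (x - π / 6) = (β r - x) + π / 6 by ring,
    show -β r - (x - π / 6) = -(β r + x) + π / 6 by ring, s_pi_six, s_pi_six, Real.cos_neg]

/-- the end of the loop -/
theorem V_end (k : ℕ) (β : ℕ → ℝ) (x : ℝ) (c : ℕ → ℝ) (hc : ∀ r < 2 * k + 1, c r = β r)
    (h1 : c (2 * k + 1) = -x + π / 6) (h2 : c (2 * k + 2) = x + π / 6) :
    De (2 * k + 1) (V (k + 1) c) = CC k β x • V k β := by
  rw [← V_ngR]
  have e0 : ∀ j < 2 * (k + 1), ng (2 * (k + 1)) c j = c j := by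
    intro j hj
    unfold ng
    rw [Function.update_of_ne (by omega)]
  have e1 : ng (2 * (k + 1)) c (2 * k + 1) = -x + π / 6 := by rw [e0 _ (by omega), h1]
  have e2 : ng (2 * (k + 1)) c (2 * k + 1 + 1) = -x - π / 6 := by
    unfold ng
    rw [show 2 * k + 1 + 1 = 2 * (k + 1) by ring, Function.update_self,
      show 2 * (k + 1) = 2 * k + 2 by ring, h2]
    ring
  rw [De_V (n := k) (i := 2 * k + 1) (by omega) _ (by rw [e1, e2]; ring), K_eq (by omega), sw_left, e2]
  have e3 : ∀ j < 2 * k + 1, rem (2 * k + 1) (sw (2 * k + 1) (ng (2 * (k + 1)) c)) j = β j := by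
    intro j hj
    unfold rem
    rw [if_pos hj, sw_of_ne _ (by omega) (by omega), e0 j (by omega), hc j hj]
  have e4 : ∀ j < 2 * k + 1, rem (2 * k + 1) (ng (2 * (k + 1)) c) j = β j := by
    intro j hj
    unfold rem
    rw [if_pos hj, e0 j (by omega), hc j hj]
  rw [Vc (n := k) e4]
  congr 1
  rw [CC_eq]
  unfold KK
  apply prod_congr rfl
  intro r hr
  rw [e3 r (mem_range.1 hr), show β r - (-x - π / 6) = (β r + x) + π / 6 by ring,
    show -β r - (-x - π / 6) = -(β r - x) + π / 6 by ring, s_pi_six, s_pi_six, Real.cos_neg]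
  ring

theorem Dc_V_mul (k : ℕ) (β : ℕ → ℝ) (x : ℝ) :
    CC k β x • Dc k β x (V k β) = CC k β x • (CC k β x • V k β) := by
  set a := pq (-x + π / 6) (x + π / 6) β with ha
  have hs := V_start k β x
  rw [← ha] at hs
  have hc1 : (fun r => x - β r + π / 6) = fun r => a 1 - a (1 + 1 + r) := by
    funext r
    rw [ha, pq_one, show 1 + 1 + r = r + 2 by omega, pq_add]
    ring
  have m1 := V_col (n := k + 1) 1 (2 * k + 1) (by omega) a
  set a' := rot 1 (2 * k + 1) a with ha'
  have ha0 : a' 0 = a 0 := rot_lt (by omega) a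
  have hc0 : ∀ r < 2 * k + 1, -x - β r + π / 6 = a' 0 - a' (0 + 1 + r) := by
    intro r hr
    rw [ha0, ha', rot_mid (by omega) (by omega), ha, pq_zero, show 0 + 1 + r + 1 = r + 2 by omega, pq_add]
    ring
  have m0 := V_col (n := k + 1) 0 (2 * k + 1) (by omega) a'
  have key : CC k β x • Dc k β x (V k β) = De (2 * k + 1) (col 0 (fun r => -x - β r + π / 6) (2 * k + 1)
      (col 1 (fun r => x - β r + π / 6) (2 * k + 1) (V (k + 1) a))) := by
    rw [hs, Dc_apply]
    simp only [map_smul]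
  rw [key, hc1, m1, col_congr 0 (2 * k + 1) hc0]
  simp only [map_smul]
  rw [m0, map_smul, V_end k β x]
  · rw [smul_smul, smul_smul, smul_smul]
    congr 2
    unfold CC
    rw [prod_mul_distrib]
    congr 1
    · apply prod_congr rfl
      intro r _
      rw [ha, pq_one, show 1 + 1 + r = r + 2 by omega, pq_add]
      congr 1
      ring
    · apply prod_congr rfl
      intro r hr
      rw [← hc0 r (mem_range.1 hr)]
  · intro r hr
    rw [rot_mid (by omega) (by omega), ha', rot_mid (by omega) (by omega), ha, pq_add]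
  · have := rot_self 0 (2 * k + 1) a'
    rw [zero_add] at this
    rw [this, ha0, ha, pq_zero]
  · rw [rot_gt (by omega), ha', show 2 * k + 2 = 1 + (2 * k + 1) by omega, rot_self, ha, pq_one]

/-- the loose loop is swallowed by `V k β` -/
theorem Dc_V (k : ℕ) (β : ℕ → ℝ) (x : ℝ) : Dc k β x (V k β) = CC k β x • V k β := by
  have hf : CV (fun x => Dc k β x (V k β)) := by
    simp only [Dc_apply]
    exact (((CV_const (In 0 (V k β))).col 1 (2 * k + 1) (u := fun x r => x - β r + π / 6)
      (fun r => by fun_prop)).col 0 (2 * k + 1) (u := fun x r => -x - β r + π / 6)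
      (fun r => by fun_prop)).lin _
  have hg : CV (fun x => CC k β x • V k β) := (CV_const (V k β)).smul (CC_cont k β)
  have := CV_ext hf hg (CC_dense k β) (fun y hy => smul_right_injective M hy (Dc_V_mul k β y))
  exact congrFun this x

end H45LD
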